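import Mathlib

set_option autoImplicit false

/-!
Contrapositive symmetries of fuzzy implications: (CP) together with (L-CP) implies (R-CP).
-/

namespace Pool.Agent.Results.MP_478a43_lc.NoCPLCPWithoutRCP

/-- A fuzzy negation on `[0,1]`: non-increasing, `N 0 = 1` and `N 1 = 0`. -/
def IsFuzzyNegation (N : unitInterval → unitInterval) : Prop :=
  Antitone N ∧ N 0 = 1 ∧ N 1 = 0

/-- A fuzzy implication on `[0,1]`: non-increasing in the first variable, non-decreasing in the
second variable, `I 0 0 = 1`, `I 1 1 = 1` and `I 1 0 = 0`. -/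
def IsFuzzyImplication (I : unitInterval → unitInterval → unitInterval) : Prop :=
  (∀ x x' y, x ≤ x' → I x' y ≤ I x y) ∧ (∀ x y y', y ≤ y' → I x y ≤ I x y') ∧
    I 0 0 = 1 ∧ I 1 1 = 1 ∧ I 1 0 = 0

/-- Contrapositive symmetry (CP) of `I` with respect to `N`. -/
def CP (I : unitInterval → unitInterval → unitInterval) (N : unitInterval → unitInterval) : Prop :=
  ∀ x y, I x y = I (N y) (N x)

/-- Left contrapositive symmetry (L-CP) of `I` with respect to `N`. -/
def LCP (I : unitInterval → unitInterval → unitInterval) (N : unitInterval → unitInterval) :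
    Prop :=
  ∀ x y, I (N x) y = I (N y) x

/-- Right contrapositive symmetry (R-CP) of `I` with respect to `N`. -/
def RCP (I : unitInterval → unitInterval → unitInterval) (N : unitInterval → unitInterval) :
    Prop :=
  ∀ x y, I x (N y) = I y (N x)

/-- There are no fuzzy implication `I` and fuzzy negation `N` such that `I` satisfies (CP) and
(L-CP) with respect to `N` but does not satisfy (R-CP) with respect to `N`. -/
theorem result :
    ¬ ∃ (I : unitInterval → unitInterval → unitInterval) (N : unitInterval → unitInterval),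
      IsFuzzyImplication I ∧ IsFuzzyNegation N ∧ CP I N ∧ LCP I N ∧ ¬ RCP I N := by
  rintro ⟨I, N, -, -, hcp, hl, hr⟩
  refine hr fun x y => ?_
  -- both sides are values of `I (N (N x)) ·`
  have h1 : I x (N y) = I (N (N x)) (N (N (N y))) := by
    rw [hcp x (N y), hcp (N (N y)) (N x)]
  have h2 : I y (N x) = I (N (N x)) (N y) := hcp y (N x)
  -- (CP) and (L-CP) give `I (N a) (N (N b)) = I (N a) b`
  have h3 : I (N (N x)) (N (N (N y))) = I (N (N x)) (N y) := by
    rw [← hcp (N (N y)) (N x), hl (N y) (N x)]
  rw [h1, h2, h3]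

end Pool.Agent.Results.MP_478a43_lc.NoCPLCPWithoutRCP
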